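import Pool.Agent.H28.MCB.Targets
import Pool.Agent.H75.MCL.DTB

/-!
# One interval, any number of clusters (row DB1 of the project MCB)
-/

set_option autoImplicit false

open Finset Filter Topology

namespace Pool.Agent.H73.MCB

open Pool.Agent.H28.MCL Pool.Agent.H28.MCB
open Pool.Agent.H75.MCL (bc_mem)

lemma final_ineq1 {κ z ζ X : ℝ} (hκ : 0 < κ) (hκ1 : κ ≤ 1) (hz0 : 0 ≤ z) (hz1 : z ≤ 1)
    (hX0 : 0 ≤ X) (hX2 : X ≤ 2) (hz : 9 * z ≤ ζ) :
    (1 + z) * (1 / 4) * (2 * (1 + z) + 2 * ((1 + z) * ((1 - κ + z) + κ * X))) ≤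
      1 - κ / 2 + κ / 2 * X + ζ := by
  have h1 : (1 + z) * (1 / 4) * (2 * (1 + z) + 2 * ((1 + z) * ((1 - κ + z) + κ * X))) =
      (1 + z) ^ 2 * (1 - κ / 2 + z / 2 + κ / 2 * X) := by ring
  rw [h1]
  have h2 : (1 + z) ^ 2 ≤ 1 + 3 * z := by nlinarith
  have hκX : κ * X ≤ 2 := by nlinarith
  have hκX0 : 0 ≤ κ * X := by positivity
  have h3 : 0 ≤ 1 - κ / 2 + z / 2 + κ / 2 * X := by nlinarith
  have h4 : 1 - κ / 2 + z / 2 + κ / 2 * X ≤ 5 / 2 := by nlinarith
  calc (1 + z) ^ 2 * (1 - κ / 2 + z / 2 + κ / 2 * X)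
      ≤ (1 + 3 * z) * (1 - κ / 2 + z / 2 + κ / 2 * X) := mul_le_mul_of_nonneg_right h2 h3
    _ = (1 - κ / 2 + z / 2 + κ / 2 * X) + 3 * z * (1 - κ / 2 + z / 2 + κ / 2 * X) := by ring
    _ ≤ (1 - κ / 2 + z / 2 + κ / 2 * X) + 3 * z * (5 / 2) := by
        have := mul_le_mul_of_nonneg_left h4 (by positivity : (0 : ℝ) ≤ 3 * z)
        linarith
    _ ≤ 1 - κ / 2 + κ / 2 * X + ζ := by linarith

/-- the trivial bound for `yy` -/
lemma yy_triv (hc : T_CNT) {m : ℕ} {W : ℕ} (hW : 0 < W) {A : Fin m → Finset ℕ}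
    {g : Fin m → ℕ → ℝ} (hA : ∀ l, A l ⊆ Finset.range W) (hg : ∀ l y, |g l y| ≤ 1)
    (T : ℕ) (l : Fin m) (j n : ℕ) : yy W A g T l j n ≤ (A l).card * ((T : ℝ) / W + 1) := by
  refine le_trans ?_ ((hc W n T (A l) hW (hA l)).1)
  unfold yy
  refine (Finset.abs_sum_le_sum_abs _ _).trans ?_
  calc ∑ t ∈ (Finset.Icc 1 T).filter (fun t => (n + t) % W ∈ A l),
        |g l (n + t) * g l (n + t + j * W)|
      ≤ ∑ t ∈ (Finset.Icc 1 T).filter (fun t => (n + t) % W ∈ A l), (1 : ℝ) := by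
        refine Finset.sum_le_sum fun t _ => ?_
        rw [abs_mul]
        exact mul_le_one₀ (hg _ _) (abs_nonneg _) (hg _ _)
    _ = _ := by simp

theorem db1 (hq : T_DTQ) (hy : T_YBD) (hn : T_NRM) (hc : T_CNT) : T_DB1 := by
  intro m l κ hκ hκ1 q W hq0 hqW hW ζ hζ
  obtain ⟨z, hz, hz1, hz2⟩ : ∃ z : ℝ, 0 < z ∧ z ≤ 1 ∧ 9 * z ≤ ζ := by
    refine ⟨min 1 (ζ / 9), lt_min one_pos (by positivity), min_le_left _ _, ?_⟩
    have := min_le_right (1 : ℝ) (ζ / 9)
    linarith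
  obtain ⟨K₀, hK₀⟩ := hn m 2 q W z (by norm_num) hq0 hW hz
  refine ⟨⌈2 * W / z⌉₊ + 1, fun h hh => ?_⟩
  have hhpos : 0 < h := by omega
  have hWh : (W : ℝ) ≤ z / 2 * h := by
    have h1 : 2 * W / z ≤ (h : ℝ) := by
      refine (Nat.le_ceil _).trans ?_
      exact_mod_cast (by omega : ⌈2 * W / z⌉₊ ≤ h)
    rw [div_le_iff₀ hz] at h1
    linarith
  refine ⟨max (max K₀ q) (max 1 ⌈2 * ((2 * h + 1) * W : ℝ) / z⌉₊), ?_⟩
  intro n₀ τ A g hA hA2 hg N H T hKH hHN hKT w hw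
  simp only [max_le_iff] at hKH hKT
  obtain ⟨hH1, hH2⟩ := hK₀ A H T hKH.1.1 hKT.1.1
  have hT : ((2 * h + 1) * W : ℝ) ≤ z / 2 * T := by
    have h1 : 2 * ((2 * h + 1) * W : ℝ) / z ≤ T :=
      (Nat.le_ceil _).trans (by exact_mod_cast hKT.2.2)
    rw [div_le_iff₀ hz] at h1
    linarith
  have hTpos : 0 < T := by omega
  have hTR : (0 : ℝ) < T := by exact_mod_cast hTpos
  have hqR : (0 : ℝ) < q := by exact_mod_cast hq0
  have hHpos : 0 < H := by omega
  have hHR : (0 : ℝ) < H := by exact_mod_cast hHpos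
  have hqH : (q : ℝ) ≤ H := by exact_mod_cast hKH.1.2
  set b : ℕ → ℝ := bc W κ h A g l 1 with hb
  have hv : ∀ n, 0 ≤ av T b n ∧ av T b n ≤ 1 := by
    intro n
    unfold av
    constructor
    · exact mul_nonneg (by positivity) (Finset.sum_nonneg fun s _ => (bc_mem W κ h A g l 1 _).1)
    · have h1 : ∑ s ∈ Finset.Icc 1 T, b (n + s) ≤ T := by
        calc ∑ s ∈ Finset.Icc 1 T, b (n + s)
            ≤ ∑ s ∈ Finset.Icc 1 T, (1 : ℝ) :=
              Finset.sum_le_sum fun s _ => (bc_mem W κ h A g l 1 _).2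
          _ = T := by simp
      rw [one_div, inv_mul_le_iff₀ hTR, mul_one]
      exact h1
  set M := mm q W A H T with hMdef
  set S := ∑ n ∈ iv N H q n₀, ∏ l, yy W A g T l 1 n with hS
  set p := pp W A T with hpdef
  set Y := ∑ n ∈ iv N H q n₀, av T b n with hY
  have hM0 : 0 ≤ M := by
    rw [hMdef]
    unfold mm
    exact mul_nonneg (by positivity) (Finset.prod_nonneg fun l _ => by positivity)
  have hp0 : 0 ≤ p := by
    rw [hpdef]
    unfold pp
    exact Finset.prod_nonneg fun l _ => by positivity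
  have hS0 : 0 ≤ S := Finset.sum_nonneg fun n _ => Finset.prod_nonneg fun l _ => abs_nonneg _
  have hY0 : 0 ≤ Y := Finset.sum_nonneg fun n _ => (hv n).1
  have hcard : ((iv N H q n₀).card : ℝ) ≤ (H : ℝ) / q + 1 :=
    ((hc q 0 H ∅ hq0 (Finset.empty_subset _)).2.2 N n₀ hHN).1
  have hYc : Y ≤ (H : ℝ) / q + 1 := by
    refine le_trans ?_ hcard
    calc Y ≤ ∑ n ∈ iv N H q n₀, (1 : ℝ) := Finset.sum_le_sum fun n _ => (hv n).2
      _ = _ := by simp
  -- one product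
  have hone : ∀ n, ∏ l, yy W A g T l 1 n ≤ p * (1 - κ + κ * av T b n + z) := by
    intro n
    have hE0 : 0 ≤ 1 - κ * (1 - av T b n) + z := by
      have := hv n
      nlinarith
    have h1 : yy W A g T l 1 n ≤ (A l).card * ((T : ℝ) / W) *
        (1 - κ * (1 - av T b n) + z) :=
      hy m W h T 1 n κ z A g l hA hg hW hhpos hTpos hκ hκ1 hz hWh hT
    have h2 : yy W A g T l 1 n ≤ ((A l).card * ((T : ℝ) / W + 1)) *
        (1 - κ * (1 - av T b n) + z) := by
      refine h1.trans (mul_le_mul_of_nonneg_right ?_ hE0)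
      refine mul_le_mul_of_nonneg_left ?_ (Nat.cast_nonneg _)
      linarith
    have h3 : ∏ l' ∈ univ.erase l, yy W A g T l' 1 n ≤
        ∏ l' ∈ univ.erase l, ((A l').card * ((T : ℝ) / W + 1)) :=
      Finset.prod_le_prod (fun l' _ => abs_nonneg _) fun l' _ => yy_triv hc hW hA hg T l' 1 n
    rw [← Finset.mul_prod_erase univ _ (mem_univ l)]
    have h4 : p = ((A l).card * ((T : ℝ) / W + 1)) *
        ∏ l' ∈ univ.erase l, ((A l').card * ((T : ℝ) / W + 1)) := by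
      rw [hpdef]
      unfold pp
      rw [← Finset.mul_prod_erase univ _ (mem_univ l)]
    rw [h4]
    have h5 : (0 : ℝ) ≤ ∏ l' ∈ univ.erase l, yy W A g T l' 1 n :=
      Finset.prod_nonneg fun l' _ => abs_nonneg _
    calc yy W A g T l 1 n * ∏ l' ∈ univ.erase l, yy W A g T l' 1 n
        ≤ (((A l).card * ((T : ℝ) / W + 1)) * (1 - κ * (1 - av T b n) + z)) *
          ∏ l' ∈ univ.erase l, ((A l').card * ((T : ℝ) / W + 1)) :=
          mul_le_mul h2 h3 h5 (mul_nonneg (by positivity) hE0)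
      _ = _ := by ring
  have h0 : 0 ≤ 1 - κ + z := by linarith
  have hsum : S ≤ (p * ((H : ℝ) / q + 1)) * (1 - κ + z) + κ * (p * Y) := by
    calc S ≤ ∑ n ∈ iv N H q n₀, p * (1 - κ + κ * av T b n + z) :=
          Finset.sum_le_sum fun n _ => hone n
      _ = p * ((iv N H q n₀).card * (1 - κ + z) + κ * Y) := by
          rw [← Finset.mul_sum]
          congr 1
          have h1 : ∀ n, 1 - κ + κ * av T b n + z = (1 - κ + z) + κ * av T b n := by
            intro n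
            ring
          simp only [h1]
          rw [Finset.sum_add_distrib, Finset.sum_const, nsmul_eq_mul, ← Finset.mul_sum]
      _ ≤ p * (((H : ℝ) / q + 1) * (1 - κ + z) + κ * Y) := by
          refine mul_le_mul_of_nonneg_left ?_ hp0
          have := mul_le_mul_of_nonneg_right hcard h0
          linarith
      _ = _ := by ring
  set X : ℝ := (q : ℝ) / H * Y with hX
  have hX0 : 0 ≤ X := mul_nonneg (by positivity) hY0
  have hX2 : X ≤ 2 := by
    have h1 : X ≤ (q : ℝ) / H * ((H : ℝ) / q + 1) :=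
      mul_le_mul_of_nonneg_left hYc (by positivity)
    have h2 : (q : ℝ) / H * ((H : ℝ) / q + 1) = 1 + q / H := by field_simp
    have h3 : (q : ℝ) / H ≤ 1 := by
      rw [div_le_one hHR]
      exact hqH
    linarith
  have hpY : p * Y ≤ (1 + z) * M * X := by
    have h1 : Y = (H : ℝ) / q * X := by
      rw [hX]
      field_simp
    have h2 : p * ((H : ℝ) / q) ≤ (1 + z) * M := by
      refine le_trans ?_ hH2
      have : p * ((H : ℝ) / q) ≤ p * ((H : ℝ) / q + 1) :=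
        mul_le_mul_of_nonneg_left (by linarith) hp0
      linarith
    calc p * Y = (p * ((H : ℝ) / q)) * X := by
          rw [h1]
          ring
      _ ≤ _ := mul_le_mul_of_nonneg_right h2 hX0
  have hS2 : S ≤ M * ((1 + z) * ((1 - κ + z) + κ * X)) := by
    have h1 : (p * ((H : ℝ) / q + 1)) * (1 - κ + z) ≤ (1 + z) * M * (1 - κ + z) := by
      refine mul_le_mul_of_nonneg_right ?_ h0
      linarith
    have h2 : κ * (p * Y) ≤ κ * ((1 + z) * M * X) := mul_le_mul_of_nonneg_left hpY hκ.le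
    calc S ≤ (1 + z) * M * (1 - κ + z) + κ * ((1 + z) * M * X) := by linarith
      _ = _ := by ring
  have hdtq := hq m q W n₀ 2 τ A g w N H T hq0 hW hqW (by norm_num) hA hA2 hg hw hHN
  refine hdtq.trans ?_
  have h1 : Finset.Ico 1 2 = {1} := by decide
  rw [h1, Finset.sum_singleton]
  push_cast at hH1 hH2 ⊢
  have h2 : (W : ℝ) / q * p * (((H : ℝ) / W + 1 + 2) / 2 ^ 2 *
      (2 * (((H : ℝ) / q + 1) * p) + 2 * ((2 - 1) * S))) =
      ((W : ℝ) / q * p * ((H : ℝ) / W + 1 + 2)) * ((1 / 4) *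
        (2 * (((H : ℝ) / q + 1) * p) + 2 * S)) := by ring
  rw [h2]
  calc ((W : ℝ) / q * p * ((H : ℝ) / W + 1 + 2)) * ((1 / 4) *
        (2 * (((H : ℝ) / q + 1) * p) + 2 * S))
      ≤ ((1 + z) * M) * ((1 / 4) * (2 * ((1 + z) * M) +
          2 * (M * ((1 + z) * ((1 - κ + z) + κ * X))))) := by
        refine mul_le_mul hH1 ?_ (by positivity) (by positivity)
        refine mul_le_mul_of_nonneg_left ?_ (by norm_num)
        linarith
    _ = M ^ 2 * ((1 + z) * (1 / 4) *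
          (2 * (1 + z) + 2 * ((1 + z) * ((1 - κ + z) + κ * X)))) := by ring
    _ ≤ M ^ 2 * (1 - κ / 2 + κ / 2 * X + ζ) :=
        mul_le_mul_of_nonneg_left (final_ineq1 hκ hκ1 hz.le hz1 hX0 hX2 hz2) (sq_nonneg _)

end Pool.Agent.H73.MCB
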