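import Pool.Agent.H28.MCB.Targets
import Pool.Agent.H75.MCL.DTB

/-!
# A family of intervals, many clusters (row DIA of the project MCB)
-/

set_option autoImplicit false

open Finset Filter Topology

namespace Pool.Agent.H73.MCB

open Pool.Agent.H28.MCL Pool.Agent.H28.MCB
open Pool.Agent.H75.MCL (bc_mem)

lemma bb_nn {m D : ℕ} (hD : 2 ≤ D) (W : ℕ) (κ : ℝ) (h : ℕ) (A : Fin m → Finset ℕ)
    (g : Fin m → ℕ → ℝ) (z : ℕ) : 0 ≤ bb D W κ h A g z := by
  unfold bb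
  have hD' : (2 : ℝ) ≤ D := by exact_mod_cast hD
  refine mul_nonneg ?_ (Finset.sum_nonneg fun l _ => Finset.sum_nonneg fun j _ =>
    (bc_mem W κ h A g l j z).1)
  have : (0 : ℝ) ≤ (m : ℝ) * ((D : ℝ) - 1) := mul_nonneg (Nat.cast_nonneg _) (by linarith)
  positivity

theorem dia (h1 : T_DA1) (hf : T_FAM) (ha : T_AVB) : T_DIA := by
  intro m D κ θ δ hm hD hκ hκ1 hθ hδ q W hq0 hqW hW ζ hζ
  obtain ⟨h₁, hh₁⟩ := h1 m D κ hm hD hκ hκ1 q W hq0 hqW hW ζ hζ
  refine ⟨h₁, fun h hh => ?_⟩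
  obtain ⟨K, hK⟩ := hh₁ h hh
  refine ⟨max K (max q 1), ?_⟩
  intro n₀ τ A g hA hA2 hg N T I hKT hTN hI hlen hsum w hw
  simp only [max_le_iff] at hKT
  set V : ℝ := 1 / D + 4 * Real.sqrt (1 - κ / 4) ^ m with hV
  have hV0 : 0 ≤ V := by
    have : 0 ≤ Real.sqrt (1 - κ / 4) ^ m := pow_nonneg (Real.sqrt_nonneg _) _
    positivity
  set b : ℕ → ℝ := bb D W κ h A g with hb
  have hb0 : ∀ n, 0 ≤ b n := fun n => bb_nn hD W κ h A g n
  have hav0 : ∀ n, 0 ≤ av T b n := fun n =>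
    mul_nonneg (by positivity) (Finset.sum_nonneg fun s _ => hb0 _)
  have hI1 : Fam 1 N I := by
    refine ⟨fun J hJ => ?_, hI.2⟩
    have := hI.1 J hJ
    omega
  have hJ : ∀ J ∈ I, (lhs q n₀ τ (gc W A g) w J.2 (J.2 - J.1) T) ^ 2 ≤
      (mm q W A (J.2 - J.1) T) ^ 2 *
      ((V + ζ) + 16 * ((q : ℝ) / ((J.2 - J.1 : ℕ) : ℝ) *
        ∑ n ∈ iv J.2 (J.2 - J.1) q n₀, av T b n)) := by
    intro J hJI
    have h2 := hI.1 J hJI
    have h3 := hK n₀ τ A g hA hA2 hg J.2 (J.2 - J.1) T (by omega) (by omega) hKT.1 w hw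
    refine h3.trans (le_of_eq ?_)
    congr 1
    ring
  have h4 := hf m q W n₀ τ A (gc W A g) w (V + ζ) 16 N T I (av T b) hq0 (by positivity)
    (by norm_num) hav0 hI1 hJ
  refine h4.trans (mul_le_mul_of_nonneg_left ?_ (sq_nonneg _))
  have h5 := ha b δ q n₀ N T hb0 hq0 hKT.2.1 hTN hsum
  have hqR : (0 : ℝ) < q := by exact_mod_cast hq0
  have h6 : (q : ℝ) / (len I : ℝ) * ∑ n ∈ iv N N q n₀, av T b n ≤ 4 * (δ / θ) := by
    rcases Nat.eq_zero_or_pos (len I) with h0 | h0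
    · rw [h0]
      simp only [Nat.cast_zero, div_zero, zero_mul]
      positivity
    · have hL : (0 : ℝ) < len I := by exact_mod_cast h0
      calc (q : ℝ) / (len I : ℝ) * ∑ n ∈ iv N N q n₀, av T b n
          ≤ (q : ℝ) / (len I : ℝ) * (4 * δ * N / q) :=
            mul_le_mul_of_nonneg_left h5 (by positivity)
        _ = 4 * δ * N / (len I : ℝ) := by field_simp
        _ ≤ 4 * (δ / θ) := by
            rw [div_le_iff₀ hL]
            have h7 : 4 * (δ / θ) * (len I : ℝ) = 4 * δ * ((len I : ℝ) / θ) := by ring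
            rw [h7]
            refine mul_le_mul_of_nonneg_left ?_ (by positivity)
            rw [le_div_iff₀ hθ]
            linarith
  linarith

end Pool.Agent.H73.MCB
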